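import Pool.Agent.N213.GF.H
import Pool.Agent.N213.GF.F
import Pool.Agent.L7h50.AB.Out

/-!
# The equation `a p - b q = c` for all the `c` near random integers whose digits form a random field on a graph

Definitions used. `Pool.Agent.L7h50.AB.Defs`: `Admissible`, `solutions`, `density`, `AsPredicted`, `AllNear` (see there).
Starting file `Pool.Agent.H560R3.GB.Defs` (in `density`): `C₂`: the twin prime constant `∏_{p > 2} (1 - 1 / (p - 1) ^ 2)`.

Method: exponential sums over the integers whose digits form a Markov random field (averages over separated neighbourhoods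
in the graph of positions) are from the starting files (`Pool.Agent.N213.GF`). New here: the class of these distributions is
stable under the restriction to residue classes and the division by small integers, and the equation `a p - b q = c` is
reduced to such quotients (`Pool.Agent.L7h50.AB`).
-/

set_option autoImplicit false

namespace Pool.Agent.Results.MP_bf63dc_nt.RandomFieldConstants

open Finset Pool.Agent.L7h50.AB

/-- The digit of `v` at the position `i` in base `d` (the position `0` is the least significant one). -/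
def dig (d v i : ℕ) : ℕ := v / d ^ i % d

/-- The integer which has the digits of `v` at the positions in `S` and the digits of `w` at the other positions below `k`. -/
def splice (d k : ℕ) (S : Finset ℕ) (v w : ℕ) : ℕ := ∑ i ∈ range k, (if i ∈ S then dig d v i else dig d w i) * d ^ i

/-- `v` and `w` have the same digits outside the set `S` of positions. -/
def Off (d : ℕ) (S : Finset ℕ) (v w : ℕ) : Prop := ∀ i, i ∉ S → dig d v i = dig d w i

open Classical in
/-- The closed neighbourhood of the position `i` in the graph `G` on the positions `0, …, k - 1`. -/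
noncomputable def nb (k : ℕ) (G : ℕ → ℕ → Prop) (i : ℕ) : Finset ℕ := (range k).filter fun j => j = i ∨ G i j

open Classical in
/-- The total weight of the integers below `d ^ k` which have the same digits as `v` outside `S`. -/
noncomputable def mass (d k : ℕ) (p : ℕ → ℝ) (S : Finset ℕ) (v : ℕ) : ℝ :=
  ∑ w ∈ (range (d ^ k)).filter (fun w => Off d S w v), p w

/-- The digits of a random integer `v < d ^ k` (with the probabilities `p v`) form a Markov random field on a graph `G` of
positions with degrees at most `Δ` (the Markov property: for every set `S` of positions and all `v`, `w` which have the same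
digits at the positions outside `S` adjacent to `S`, the product `p v * p w` does not change if `v` and `w` exchange their
digits in `S`), and each digit is flexible: for every `v` with `p v ≠ 0` and every position `i`, there are `x` and `y` which
have the same digits as `v` outside the closed neighbourhood of `i`, which differ from each other exactly at the position
`i`, and whose conditional probabilities, given the digits outside this neighbourhood, are at least `η`. -/
structure Field (d k Δ : ℕ) (η : ℝ) (G : ℕ → ℕ → Prop) (p : ℕ → ℝ) : Prop where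
  symm : ∀ i j, G i j → G j i
  degree : ∀ i < k, (nb k G i).card ≤ Δ + 1
  nonneg : ∀ v, 0 ≤ p v
  sum : ∑ v ∈ range (d ^ k), p v = 1
  markov : ∀ S : Finset ℕ, ∀ v < d ^ k, ∀ w < d ^ k, (∀ i ∈ S, ∀ j < k, j ∉ S → G i j → dig d v j = dig d w j) →
    p v * p w = p (splice d k S v w) * p (splice d k S w v)
  flexible : ∀ v < d ^ k, p v ≠ 0 → ∀ i < k, ∃ x < d ^ k, ∃ y < d ^ k, Off d (nb k G i) x v ∧ Off d {i} y x ∧
    dig d y i ≠ dig d x i ∧ η * mass d k p (nb k G i) v ≤ p x ∧ η * mass d k p (nb k G i) v ≤ p y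

open Classical in
/-- The integers `v < d ^ k` whose nonzero digits form an independent set of the graph `G` of positions. -/
noncomputable def independent (d k : ℕ) (G : ℕ → ℕ → Prop) : Finset ℕ :=
  (range (d ^ k)).filter fun v => ∀ i < k, ∀ j < k, i ≠ j → G i j → dig d v i = 0 ∨ dig d v j = 0

open Classical in
/-- The integers `v < d ^ k` whose digits are a proper colouring of the graph `G` of positions. -/
noncomputable def colourings (d k : ℕ) (G : ℕ → ℕ → Prop) : Finset ℕ :=
  (range (d ^ k)).filter fun v => ∀ i < k, ∀ j < k, i ≠ j → G i j → dig d v i ≠ dig d v j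

lemma field_conv {d k Δ : ℕ} {η : ℝ} {G : ℕ → ℕ → Prop} {p : ℕ → ℝ} (h : Field d k Δ η G p) :
    Pool.Agent.N213.GF.Field d k Δ η G p :=
  ⟨h.symm, h.degree, h.nonneg, h.sum, h.markov, h.flexible⟩

lemma sol_iff (d k : ℕ) (G : ℕ → ℕ → Prop) (P : ℕ → ℕ → Prop) (v : ℕ) :
    v ∈ Pool.Agent.N213.GF.Sol d k G (fun i j x y => i ≠ j → P x y) ↔
      v < d ^ k ∧ ∀ i < k, ∀ j < k, i ≠ j → G i j → P (dig d v i) (dig d v j) := by
  rw [Pool.Agent.N213.GF.mem_Sol]
  constructor
  · rintro ⟨h1, h2⟩
    exact ⟨h1, fun i hi j hj hij hG => h2 i hi j (Pool.Agent.N213.GF.mem_nb.2 ⟨hj, Or.inr hG⟩) hij⟩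
  · rintro ⟨h1, h2⟩
    refine ⟨h1, fun i hi j hj hij => ?_⟩
    obtain ⟨q1, q2⟩ := Pool.Agent.N213.GF.mem_nb.1 hj
    rcases q2 with rfl | q2
    · exact absurd rfl hij
    · exact h2 i hi j q1 hij q2

lemma card_of {S T : Finset ℕ} {P : ℕ → Prop} {i₁ i₂ : DecidablePred P} {x : ℝ} (hST : S = T)
    (h : ((@Finset.filter _ P i₂ T).card : ℝ) ≤ T.card * x) : ((@Finset.filter _ P i₁ S).card : ℝ) ≤ S.card * x := by
  subst hST
  have e : @Finset.filter _ P i₁ S = @Finset.filter _ P i₂ S := by
    ext v
    constructor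
    · intro hv
      exact (@mem_filter _ P i₂ S v).2 ((@mem_filter _ P i₁ S v).1 hv)
    · intro hv
      exact (@mem_filter _ P i₁ S v).2 ((@mem_filter _ P i₂ S v).1 hv)
  rw [e]
  exact h

lemma independent_eq (d k : ℕ) (G : ℕ → ℕ → Prop) : independent d k G =
    Pool.Agent.N213.GF.Sol d k G (fun i j x y => i ≠ j → x = 0 ∨ y = 0) := by
  ext v
  rw [sol_iff d k G (fun x y => x = 0 ∨ y = 0)]
  unfold independent
  simp only [mem_filter, mem_range]

lemma colourings_eq (d k : ℕ) (G : ℕ → ℕ → Prop) : colourings d k G =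
    Pool.Agent.N213.GF.Sol d k G (fun i j x y => i ≠ j → x ≠ y) := by
  ext v
  rw [sol_iff d k G (fun x y => x ≠ y)]
  unfold colourings
  simp only [mem_filter, mem_range]

open Classical in
/-- **(1)** Let `d ≥ 2`, `Δ`, `η > 0`, `κ ≠ 0`, `ε > 0`, `A`, `B`, `U` and `W` be fixed, let `k` be large and `N = d ^ k`. Let `c₀`
be an arbitrary integer with `|c₀| ≤ B N`, and let `v < N` be a random integer whose digits in base `d` form a Markov random
field with flexible digits on an arbitrary graph of positions with degrees at most `Δ`. Then, with probability at least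
`1 - 1 / k ^ U`, the following is true: for all integers `a, b, c` as in the problem with `a, b ≤ A` and
`|c - (c₀ + κ v)| ≤ log ^ W N`, and for all windows `M < q ≤ M'` with `M' - M ≥ N / log ^ W N`, `M' ≤ N log ^ W N`
(and `b M + c ≥ 0` if `c < 0`), the number of the prime solutions of `a p - b q = c` with `M < q ≤ M'` is between
`1 - ε` and `1 + ε` times the prediction of Hardy and Littlewood.

**(2)** This is true for all the integers `v < d ^ k` whose nonzero digits form an independent set of the graph, with at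
most a proportion of `1 / k ^ U` exceptions.

**(3)** The same for the integers whose digits are a proper colouring of the graph, if `d ≥ Δ + 2`. -/
theorem result (d Δ : ℕ) (hd : 2 ≤ d) (κ : ℤ) (hκ : κ ≠ 0) (ε : ℝ) (hε : 0 < ε) (A B U W : ℕ) :
    (∀ η : ℝ, 0 < η → ∃ k₀ : ℕ, ∀ k : ℕ, k₀ ≤ k → ∀ c₀ : ℤ, |c₀| ≤ B * (d : ℤ) ^ k →
      ∀ (G : ℕ → ℕ → Prop) (p : ℕ → ℝ), Field d k Δ η G p →
      ∑ v ∈ range (d ^ k), (if AllNear ε A W (d ^ k) (c₀ + κ * (v : ℕ)) then 0 else p v) ≤ 1 / (k : ℝ) ^ U) ∧
    (∃ k₀ : ℕ, ∀ k : ℕ, k₀ ≤ k → ∀ c₀ : ℤ, |c₀| ≤ B * (d : ℤ) ^ k →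
      ∀ (G : ℕ → ℕ → Prop), (∀ i j, G i j → G j i) → (∀ i < k, (nb k G i).card ≤ Δ + 1) →
      (((independent d k G).filter fun v : ℕ => ¬ AllNear ε A W (d ^ k) (c₀ + κ * (v : ℕ))).card : ℝ) ≤
          (independent d k G).card * (1 / (k : ℝ) ^ U) ∧
      (Δ + 2 ≤ d → (((colourings d k G).filter fun v : ℕ => ¬ AllNear ε A W (d ^ k) (c₀ + κ * (v : ℕ))).card : ℝ) ≤
          (colourings d k G).card * (1 / (k : ℝ) ^ U))) := by
  have key : ∀ η : ℝ, 0 < η → ∃ k₀ : ℕ, ∀ k : ℕ, k₀ ≤ k → ∀ c₀ : ℤ, |c₀| ≤ B * (d : ℤ) ^ k →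
      ∀ (G : ℕ → ℕ → Prop) (p : ℕ → ℝ), Pool.Agent.N213.GF.Field d k Δ η G p →
      ∑ v ∈ range (d ^ k), (if AllNear ε A W (d ^ k) (c₀ + κ * (v : ℕ)) then 0 else p v) ≤ 1 / (k : ℝ) ^ U := by
    intro η hη
    obtain ⟨k₀, h0⟩ := cls_near (Pool.Agent.N213.GF.gf_clsV d Δ η hd hη κ hκ) A B U W 0 ε hε
    exact ⟨k₀, fun k hk c₀ hc G p hp => h0 k hk (d ^ k) le_rfl (by push_cast; rw [pow_zero, one_mul]) p ⟨G, hp⟩ c₀ hc _ _
      (fun y hy => hy)⟩
  refine ⟨fun η hη => ?_, ?_⟩
  · obtain ⟨k₀, h0⟩ := key η hη
    exact ⟨k₀, fun k hk c₀ hc G p hp => h0 k hk c₀ hc G p (field_conv hp)⟩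
  · obtain ⟨k₀, h0⟩ := key (1 / (d : ℝ) ^ (Δ + 1)) (by
      have : (0 : ℝ) < d := by exact_mod_cast (by omega : 0 < d)
      positivity)
    refine ⟨k₀, fun k hk c₀ hc G hs hdeg => ⟨?_, fun hdΔ => ?_⟩⟩
    · have hL := Pool.Agent.N213.GF.indep_local (Δ := Δ) (A := G) (k := k) hd hs hdeg
      have h1 := Pool.Agent.N213.GF.sol_count hL.nonempty (fun v => AllNear ε A W (d ^ k) (c₀ + κ * (v : ℕ))) _
        (h0 k hk c₀ hc G _ (Pool.Agent.N213.GF.unif_field hd hL))
      exact card_of (independent_eq d k G) h1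
    · have hL := Pool.Agent.N213.GF.colour_local (Δ := Δ) (A := G) (k := k) hdΔ hs hdeg
      have h1 := Pool.Agent.N213.GF.sol_count hL.nonempty (fun v => AllNear ε A W (d ^ k) (c₀ + κ * (v : ℕ))) _
        (h0 k hk c₀ hc G _ (Pool.Agent.N213.GF.unif_field hd hL))
      exact card_of (colourings_eq d k G) h1

end Pool.Agent.Results.MP_bf63dc_nt.RandomFieldConstants
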